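import Pool.Agent.Lib.P2a19ds.Defs

/-!
Subsemigroups of the general linear group closed under multiplication by the groups of the maps
`1 + x ⊗ ℓ` on the left and `1 + p ⊗ η` on the right.
-/

set_option autoImplicit false

namespace Pool.Agent.P2a19ds

open Module Pool.Agent.P2a19db

variable {F R : Type*} [Field F] [AddCommGroup R] [Module F R] [FiniteDimensional F R]

/-- the closure conditions -/
structure Clos (x : R) (η : R →ₗ[F] F) (S : Set (R ≃ₗ[F] R)) : Prop where
  mul : ∀ b ∈ S, ∀ b' ∈ S, b * b' ∈ S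
  left : ∀ b ∈ S, ∀ (k : R ≃ₗ[F] R) (ℓ : R →ₗ[F] F), (∀ v, k v = v + ℓ v • x) → k * b ∈ S
  right : ∀ b ∈ S, ∀ (k : R ≃ₗ[F] R) (p : R), (∀ v, k v = v + η v • p) → b * k ∈ S

variable {x : R} {η : R →ₗ[F] F} {S : Set (R ≃ₗ[F] R)}

lemma same (h : Clos x η S) (hx : η x = 1) {b b' : R ≃ₗ[F] R} (hb : b ∈ S)
    (hb' : ∀ w, η w = 0 → b' w ≠ x) (hd : ∀ w, η w = 0 → ∃ c : F, b' w = b w + c • x) : b' ∈ S := by
  obtain ⟨c, hc⟩ : ∃ c : F, ∀ w, η w = 0 → b' w ≠ b x + c • x := by
    by_contra hcon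
    push Not at hcon
    obtain ⟨w0, h0, e0⟩ := hcon 0
    obtain ⟨w1, h1, e1⟩ := hcon 1
    refine hb' (w1 - w0) (by rw [map_sub, h0, h1, sub_zero]) ?_
    rw [map_sub, e0, e1, zero_smul, one_smul, add_zero]
    abel
  let f : R →ₗ[F] R := (b' : R →ₗ[F] R) ∘ₗ (LinearMap.id - η.smulRight x) +
    η.smulRight (b x + c • x)
  have hf : ∀ v, f v = b' (v - η v • x) + η v • (b x + c • x) := fun v => rfl
  have hη : ∀ v, η (v - η v • x) = 0 := by
    intro v
    rw [map_sub, map_smul, hx, smul_eq_mul, mul_one, sub_self]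
  have hinj : Function.Injective f := by
    rw [← LinearMap.ker_eq_bot, LinearMap.ker_eq_bot']
    intro v hv
    rw [hf] at hv
    by_cases h0 : η v = 0
    · rw [h0, zero_smul, zero_smul, add_zero, sub_zero] at hv
      exact b'.map_eq_zero_iff.1 hv
    · exfalso
      refine hc (-((η v)⁻¹ • (v - η v • x))) (by rw [map_neg, map_smul, hη, smul_zero, neg_zero]) ?_
      have h1 : b' (v - η v • x) = -(η v • (b x + c • x)) := eq_neg_of_add_eq_zero_left hv
      rw [map_neg, map_smul, h1, smul_neg, neg_neg, smul_smul, inv_mul_cancel₀ h0, one_smul]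
  let b1 : R ≃ₗ[F] R := LinearEquiv.ofInjectiveEndo f hinj
  have hb1 : ∀ v, b1 v = b' (v - η v • x) + η v • (b x + c • x) := fun v => by
    rw [← hf]; rfl
  -- the left factor
  have hdiff : ∀ u, b1 u = b u + η (b1 u - b u) • x := by
    intro u
    obtain ⟨c', hc'⟩ := hd _ (hη u)
    have e : b1 u = b u + (c' + η u * c) • x := by
      rw [hb1, hc', map_sub, map_smul]
      module
    rw [e, add_sub_cancel_left, map_smul, hx, smul_eq_mul, mul_one]
  have hmem1 : b1 ∈ S := by
    have h1 := h.left b hb (b1 * b⁻¹)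
      (η ∘ₗ ((b1 : R →ₗ[F] R) - (b : R →ₗ[F] R)) ∘ₗ ((b⁻¹ : R ≃ₗ[F] R) : R →ₗ[F] R)) (by
        intro v
        have e1 : b (b⁻¹ v) = v := b.apply_symm_apply v
        have e2 := hdiff (b⁻¹ v)
        rw [e1] at e2
        rw [LinearEquiv.mul_apply, e2]
        simp only [LinearMap.comp_apply, LinearMap.sub_apply, LinearEquiv.coe_coe]
        rw [e1, e2])
    have e : b1 * b⁻¹ * b = b1 := by group
    rw [e] at h1
    exact h1
  have h2 := h.right b1 hmem1 (b1⁻¹ * b') (b1⁻¹ (b' x - (b x + c • x))) (by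
    intro v
    have e1 : b' v = b1 v + η v • (b' x - (b x + c • x)) := by
      rw [hb1, map_sub, map_smul]
      module
    have e2 : b1⁻¹ (b1 v) = v := b1.symm_apply_apply v
    rw [LinearEquiv.mul_apply, e1, map_add, map_smul, e2])
  have e : b1 * (b1⁻¹ * b') = b' := by group
  rw [e] at h2
  exact h2

/-- projection onto the kernel of `η` along `x` -/
noncomputable def prk (hx : η x = 1) : R →ₗ[F] LinearMap.ker η :=
  LinearMap.codRestrict (LinearMap.ker η) (LinearMap.id - η.smulRight x) (fun v => by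
    rw [LinearMap.mem_ker]
    simp [hx])

omit [FiniteDimensional F R] in
lemma prk_apply (hx : η x = 1) (v : R) : ((prk hx v : LinearMap.ker η) : R) = v - η v • x := rfl

omit [FiniteDimensional F R] in
lemma prk_coe (hx : η x = 1) (w : LinearMap.ker η) : prk hx (w : R) = w := by
  apply Subtype.ext
  rw [prk_apply, LinearMap.mem_ker.1 w.2, zero_smul, sub_zero]

omit [FiniteDimensional F R] in
lemma prk_x (hx : η x = 1) : prk hx x = 0 := by
  apply Subtype.ext
  rw [prk_apply, hx, one_smul, sub_self]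
  rfl

/-- the diagonal map -/
noncomputable def Dm (hx : η x = 1) (δ : LinearMap.ker η ≃ₗ[F] LinearMap.ker η) : R →ₗ[F] R :=
  η.smulRight x + (LinearMap.ker η).subtype ∘ₗ (δ : LinearMap.ker η →ₗ[F] LinearMap.ker η) ∘ₗ prk hx

omit [FiniteDimensional F R] in
lemma Dm_apply (hx : η x = 1) (δ : LinearMap.ker η ≃ₗ[F] LinearMap.ker η) (v : R) :
    Dm hx δ v = η v • x + (δ (prk hx v) : R) := rfl

omit [FiniteDimensional F R] in
lemma Dm_inj (hx : η x = 1) (δ : LinearMap.ker η ≃ₗ[F] LinearMap.ker η) :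
    Function.Injective (Dm hx δ) := by
  rw [← LinearMap.ker_eq_bot, LinearMap.ker_eq_bot']
  intro v hv
  rw [Dm_apply] at hv
  have h1 := congrArg η hv
  rw [map_add, map_smul, hx, LinearMap.mem_ker.1 (δ (prk hx v)).2, add_zero, smul_eq_mul, mul_one,
    map_zero] at h1
  rw [h1, zero_smul, zero_add] at hv
  have h2 : δ (prk hx v) = 0 := Subtype.ext hv
  have h3 : prk hx v = 0 := δ.map_eq_zero_iff.1 h2
  have h4 := congrArg Subtype.val h3
  rw [prk_apply, h1, zero_smul, sub_zero] at h4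
  exact h4

/-- the diagonal automorphism -/
noncomputable def De (hx : η x = 1) (δ : LinearMap.ker η ≃ₗ[F] LinearMap.ker η) : R ≃ₗ[F] R :=
  LinearEquiv.ofInjectiveEndo (Dm hx δ) (Dm_inj hx δ)

lemma De_apply (hx : η x = 1) (δ : LinearMap.ker η ≃ₗ[F] LinearMap.ker η) (v : R) :
    De hx δ v = η v • x + (δ (prk hx v) : R) := rfl

lemma De_coe (hx : η x = 1) (δ : LinearMap.ker η ≃ₗ[F] LinearMap.ker η) (w : LinearMap.ker η) :
    De hx δ (w : R) = (δ w : R) := by
  rw [De_apply, LinearMap.mem_ker.1 w.2, zero_smul, zero_add, prk_coe]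

lemma De_ne (hx : η x = 1) (δ : LinearMap.ker η ≃ₗ[F] LinearMap.ker η) (w : R) (hw : η w = 0) :
    De hx δ w ≠ x := by
  intro h
  have h1 := De_coe hx δ ⟨w, hw⟩
  rw [h] at h1
  have h2 := congrArg η h1
  rw [hx, LinearMap.mem_ker.1 (δ _).2] at h2
  exact one_ne_zero h2

lemma D_mul (h : Clos x η S) (hx : η x = 1) {δ₁ δ₂ e : LinearMap.ker η ≃ₗ[F] LinearMap.ker η}
    (h1 : De hx δ₁ ∈ S) (h2 : De hx δ₂ ∈ S) {p : LinearMap.ker η} {ℓ : LinearMap.ker η →ₗ[F] F}
    (he : ∀ w, e w = w + ℓ w • p) : De hx (δ₁ * e * δ₂) ∈ S := by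
  have hp : η (p : R) = 0 := LinearMap.mem_ker.1 p.2
  let f : R →ₗ[F] R := LinearMap.id + η.smulRight (p : R)
  have hf : Function.Injective f := by
    rw [← LinearMap.ker_eq_bot, LinearMap.ker_eq_bot']
    intro v hv
    have hv' : v + η v • (p : R) = 0 := hv
    have h3 := congrArg η hv'
    rw [map_add, map_smul, hp, smul_zero, add_zero, map_zero] at h3
    rw [h3, zero_smul, add_zero] at hv'
    exact hv'
  let g : R →ₗ[F] R := LinearMap.id + (ℓ ∘ₗ prk hx).smulRight x
  have hg : Function.Injective g := by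
    rw [← LinearMap.ker_eq_bot, LinearMap.ker_eq_bot']
    intro v hv
    have hv' : v + ℓ (prk hx v) • x = 0 := hv
    have h3 := congrArg (prk hx) hv'
    rw [map_add, map_smul, prk_x, smul_zero, add_zero, map_zero] at h3
    rw [h3, map_zero, zero_smul, add_zero] at hv'
    exact hv'
  let k' : R ≃ₗ[F] R := LinearEquiv.ofInjectiveEndo f hf
  let k : R ≃ₗ[F] R := LinearEquiv.ofInjectiveEndo g hg
  have hk' : ∀ v, k' v = v + η v • (p : R) := fun v => rfl
  have hk : ∀ v, k v = v + ℓ (prk hx v) • x := fun v => rfl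
  have hmem := h.mul _ (h.right _ h1 k' p hk') _ (h.left _ h2 k (ℓ ∘ₗ prk hx) hk)
  refine same h hx hmem (De_ne hx _) ?_
  intro w hw
  obtain ⟨w, rfl⟩ : ∃ w' : LinearMap.ker η, (w' : R) = w := ⟨⟨w, hw⟩, rfl⟩
  refine ⟨-ℓ (δ₂ w), ?_⟩
  have hη : η ((δ₂ w : R) + ℓ (δ₂ w) • x) = ℓ (δ₂ w) := by
    rw [map_add, map_smul, hx, LinearMap.mem_ker.1 (δ₂ w).2, smul_eq_mul, mul_one, zero_add]
  have hv : k' (k (De hx δ₂ w)) = ((δ₂ w + ℓ (δ₂ w) • p : LinearMap.ker η) : R) + ℓ (δ₂ w) • x := by
    rw [De_coe, hk, prk_coe, hk', hη, Submodule.coe_add, Submodule.coe_smul]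
    abel
  have e2 : De hx δ₁ x = x := by
    rw [De_apply, hx, one_smul, prk_x, map_zero, Submodule.coe_zero, add_zero]
  have e3 : (De hx δ₁ * k' * (k * De hx δ₂)) (w : R) =
      (δ₁ (δ₂ w + ℓ (δ₂ w) • p) : R) + ℓ (δ₂ w) • x := by
    rw [LinearEquiv.mul_apply, LinearEquiv.mul_apply, LinearEquiv.mul_apply, hv, map_add, map_smul,
      De_coe, e2]
  rw [e3, De_coe, LinearEquiv.mul_apply, LinearEquiv.mul_apply, he]
  module

/-! ### every automorphism of the kernel occurs -/

lemma exists_D (h : Clos x η S) (hx : η x = 1) {b : R ≃ₗ[F] R} (hb : b ∈ S)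
    (hbx : η (b⁻¹ x) ≠ 0) : ∃ δ : LinearMap.ker η ≃ₗ[F] LinearMap.ker η, De hx δ ∈ S ∧
      ∀ w : LinearMap.ker η, (δ w : R) = b w - η (b w) • x := by
  let f : LinearMap.ker η →ₗ[F] LinearMap.ker η := prk hx ∘ₗ (b : R →ₗ[F] R) ∘ₗ
    (LinearMap.ker η).subtype
  have hf : ∀ w : LinearMap.ker η, (f w : R) = b w - η (b w) • x := fun w => rfl
  have hinj : Function.Injective f := by
    rw [← LinearMap.ker_eq_bot, LinearMap.ker_eq_bot']
    intro w hw
    have h1 := congrArg Subtype.val hw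
    rw [hf, Submodule.coe_zero, sub_eq_zero] at h1
    have h2 : (w : R) = η (b w) • b⁻¹ x := by
      have e1 : b⁻¹ (b w) = w := b.symm_apply_apply _
      rw [← map_smul, ← h1, e1]
    have h3 := congrArg η h2
    rw [LinearMap.mem_ker.1 w.2, map_smul, smul_eq_mul] at h3
    rcases mul_eq_zero.1 h3.symm with h4 | h4
    · rw [h4, zero_smul] at h2
      exact Subtype.ext h2
    · exact absurd h4 hbx
  let δ : LinearMap.ker η ≃ₗ[F] LinearMap.ker η := LinearEquiv.ofInjectiveEndo f hinj
  have hδ : ∀ w : LinearMap.ker η, (δ w : R) = b w - η (b w) • x := fun w => by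
    rw [← hf]; rfl
  refine ⟨δ, same h hx hb (De_ne hx _) ?_, hδ⟩
  intro w hw
  obtain ⟨w, rfl⟩ : ∃ w' : LinearMap.ker η, (w' : R) = w := ⟨⟨w, hw⟩, rfl⟩
  refine ⟨-η (b w), ?_⟩
  rw [De_coe, hδ]
  module

omit [FiniteDimensional F R] in
lemma pow_mem' (h : Clos x η S) {b : R ≃ₗ[F] R} (hb : b ∈ S) (j : ℕ) : b ^ (j + 1) ∈ S := by
  induction j with
  | zero => rw [zero_add, pow_one]; exact hb
  | succ j ih =>
    rw [pow_succ]
    exact h.mul _ ih _ hb

lemma exists_good (h : Clos x η S) (hx : η x = 1) {b : R ≃ₗ[F] R} (hb : b ∈ S) :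
    ∃ b' ∈ S, η (b'⁻¹ x) ≠ 0 := by
  by_contra hcon
  push Not at hcon
  have h0 : ∀ j : ℕ, η ((b ^ (j + 1))⁻¹ x) = 0 := fun j => hcon _ (pow_mem' h hb j)
  let U : Submodule F R := Submodule.span F (Set.range fun j : ℕ => (b ^ (j + 1))⁻¹ x)
  have hU : U ≤ LinearMap.ker η := by
    refine Submodule.span_le.2 ?_
    rintro _ ⟨j, rfl⟩
    exact h0 j
  have hmap : U.map (b.symm : R →ₗ[F] R) ≤ U := by
    refine Submodule.map_le_iff_le_comap.2 (Submodule.span_le.2 ?_)
    rintro _ ⟨j, rfl⟩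
    refine Submodule.subset_span ⟨j + 1, ?_⟩
    have e : (b ^ (j + 1 + 1))⁻¹ = b⁻¹ * (b ^ (j + 1))⁻¹ := by
      rw [pow_succ, mul_inv_rev]
    change (b ^ (j + 1 + 1))⁻¹ x = b.symm ((b ^ (j + 1))⁻¹ x)
    rw [e]
    rfl
  have heq : U.map (b.symm : R →ₗ[F] R) = U := by
    refine Submodule.eq_of_le_of_finrank_eq hmap ?_
    exact LinearEquiv.finrank_map_eq b.symm U
  have h1 : b⁻¹ x ∈ U := by
    refine Submodule.subset_span ⟨0, ?_⟩
    simp
  rw [← heq] at h1
  obtain ⟨u, hu, hux⟩ := h1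
  have h2 : u = x := b.symm.injective hux
  rw [h2] at hu
  have h3 := LinearMap.mem_ker.1 (hU hu)
  rw [hx] at h3
  exact one_ne_zero h3

/-- the step of the induction on the codimension of the fixed space -/
lemma D_all (h : Clos x η S) (hx : η x = 1) {δ : LinearMap.ker η ≃ₗ[F] LinearMap.ker η}
    (hδ : De hx δ ∈ S) : ∀ (d : ℕ) (y : LinearMap.ker η ≃ₗ[F] LinearMap.ker η),
      finrank F (LinearMap.ker η) ≤ finrank F (LinearMap.eqLocus
        (y : LinearMap.ker η →ₗ[F] LinearMap.ker η) LinearMap.id) + d →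
      De hx (δ ^ (d + 1) * y) ∈ S := by
  intro d
  induction d with
  | zero =>
    intro y hy
    have htop : LinearMap.eqLocus (y : LinearMap.ker η →ₗ[F] LinearMap.ker η) LinearMap.id = ⊤ := by
      refine Submodule.eq_top_of_finrank_eq ?_
      exact le_antisymm (Submodule.finrank_le _) (by simpa using hy)
    have hy1 : y = 1 := by
      apply LinearEquiv.ext
      intro v
      have hv : v ∈ LinearMap.eqLocus (y : LinearMap.ker η →ₗ[F] LinearMap.ker η) LinearMap.id := by
        rw [htop]; trivial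
      exact hv
    rw [hy1, mul_one, zero_add, pow_one]
    exact hδ
  | succ d ih =>
    intro y hy
    by_cases h1 : ∀ w, y w = w
    · have hy1 : y = 1 := by
        apply LinearEquiv.ext
        intro v
        exact h1 v
      have h2 := ih 1 (by
        have htop : LinearMap.eqLocus ((1 : LinearMap.ker η ≃ₗ[F] LinearMap.ker η) :
            LinearMap.ker η →ₗ[F] LinearMap.ker η) LinearMap.id = ⊤ := by
          rw [eq_top_iff]
          intro v _
          rfl
        rw [htop, finrank_top]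
        omega)
      rw [mul_one] at h2
      have h3 := D_mul h hx hδ h2 (e := 1) (p := 0) (ℓ := 0) (by
        intro w
        rw [smul_zero, add_zero]
        rfl)
      rw [mul_one, ← pow_succ'] at h3
      rw [hy1, mul_one]
      exact h3
    · push Not at h1
      obtain ⟨x₀, hx₀⟩ := h1
      set E := LinearMap.eqLocus (y : LinearMap.ker η →ₗ[F] LinearMap.ker η) LinearMap.id with hE
      have hxE : x₀ ∉ E := fun h => hx₀ h
      have hyxE : y x₀ ∉ E := fun h => hx₀ (y.injective h)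
      obtain ⟨φ0, hφx, hφy, hφE⟩ := exists_two E hxE hyxE
      set φ : LinearMap.ker η →ₗ[F] F := (φ0 x₀)⁻¹ • φ0 with hφ
      have h2 : φ x₀ = 1 := by simp [hφ, hφx]
      have h3 : φ (y x₀) ≠ 0 := by simp [hφ, hφx, hφy]
      have h4 : ∀ e ∈ E, φ e = 0 := by
        intro e he
        have := hφE he
        rw [LinearMap.mem_ker] at this
        simp [hφ, this]
      let f : LinearMap.ker η →ₗ[F] LinearMap.ker η := LinearMap.id + φ.smulRight (y x₀ - x₀)
      have hf : ∀ i, f i = i + φ i • (y x₀ - x₀) := fun i => by simp [f]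
      have hinj : Function.Injective f := by
        rw [← LinearMap.ker_eq_bot, LinearMap.ker_eq_bot']
        intro i hi
        rw [hf] at hi
        have h5 := congrArg φ hi
        rw [map_add, map_smul, map_sub, h2, map_zero, smul_eq_mul] at h5
        have h6 : φ i * φ (y x₀) = 0 := by linear_combination h5
        have h7 : φ i = 0 := by
          rcases mul_eq_zero.1 h6 with h | h
          · exact h
          · exact absurd h h3
        rw [h7, zero_smul, add_zero] at hi
        exact hi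
      set D : LinearMap.ker η ≃ₗ[F] LinearMap.ker η := LinearEquiv.ofInjectiveEndo f hinj with hD
      have hDf : ∀ i, D i = i + φ i • (y x₀ - x₀) := fun i => by
        rw [← hf]; rfl
      have hDx : D x₀ = y x₀ := by rw [hDf, h2, one_smul]; abel
      have hlt : finrank F E < finrank F (LinearMap.eqLocus
          ((D⁻¹ * y : LinearMap.ker η ≃ₗ[F] LinearMap.ker η) :
            LinearMap.ker η →ₗ[F] LinearMap.ker η) LinearMap.id) := by
        refine Submodule.finrank_lt_finrank_of_lt ?_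
        refine lt_of_le_of_ne ?_ ?_
        · intro e he
          have he' : y e = e := he
          have : D e = e := by rw [hDf, h4 e he, zero_smul, add_zero]
          change (D⁻¹ * y) e = e
          rw [LinearEquiv.mul_apply, he']
          exact (LinearEquiv.symm_apply_eq D).2 this.symm
        · intro heq
          apply hxE
          rw [heq]
          change (D⁻¹ * y) x₀ = x₀
          rw [LinearEquiv.mul_apply]
          exact (LinearEquiv.symm_apply_eq D).2 hDx.symm
      have h5 := ih (D⁻¹ * y) (by omega)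
      have h6 := D_mul h hx hδ h5 (e := δ ^ (d + 1) * D * (δ ^ (d + 1))⁻¹)
        (p := (δ ^ (d + 1)) (y x₀ - x₀))
        (ℓ := φ ∘ₗ (((δ ^ (d + 1))⁻¹ : LinearMap.ker η ≃ₗ[F] LinearMap.ker η) :
          LinearMap.ker η →ₗ[F] LinearMap.ker η)) (by
        intro w
        rw [LinearEquiv.mul_apply, LinearEquiv.mul_apply, hDf, map_add, map_smul]
        have e1 : (δ ^ (d + 1)) ((δ ^ (d + 1))⁻¹ w) = w := (δ ^ (d + 1)).apply_symm_apply w
        rw [e1]
        rfl)
      have e : δ * (δ ^ (d + 1) * D * (δ ^ (d + 1))⁻¹) * (δ ^ (d + 1) * (D⁻¹ * y)) =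
          δ ^ (d + 1 + 1) * y := by
        rw [pow_succ' δ (d + 1)]
        group
      rw [e] at h6
      exact h6

/-- The semigroup is the whole general linear group. -/
theorem clos_all (h : Clos x η S) (hx : η x = 1) (hne : S.Nonempty) (b : R ≃ₗ[F] R) : b ∈ S := by
  obtain ⟨b₀, hb₀⟩ := hne
  obtain ⟨b₁, hb₁, hb₁'⟩ := exists_good h hx hb₀
  obtain ⟨δ, hδ, -⟩ := exists_D h hx hb₁ hb₁'
  have hD : ∀ y : LinearMap.ker η ≃ₗ[F] LinearMap.ker η, De hx y ∈ S := by
    intro y
    have h1 := D_all h hx hδ (finrank F (LinearMap.ker η))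
      ((δ ^ (finrank F (LinearMap.ker η) + 1))⁻¹ * y) (by omega)
    rw [mul_inv_cancel_left] at h1
    exact h1
  have hgood : ∀ b : R ≃ₗ[F] R, η (b⁻¹ x) ≠ 0 → b ∈ S := by
    intro b hbx
    let f : LinearMap.ker η →ₗ[F] LinearMap.ker η := prk hx ∘ₗ (b : R →ₗ[F] R) ∘ₗ
      (LinearMap.ker η).subtype
    have hf : ∀ w : LinearMap.ker η, (f w : R) = b w - η (b w) • x := fun w => rfl
    have hinj : Function.Injective f := by
      rw [← LinearMap.ker_eq_bot, LinearMap.ker_eq_bot']
      intro w hw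
      have h1 := congrArg Subtype.val hw
      rw [hf, Submodule.coe_zero, sub_eq_zero] at h1
      have h2 : (w : R) = η (b w) • b⁻¹ x := by
        have e1 : b⁻¹ (b w) = w := b.symm_apply_apply _
        rw [← map_smul, ← h1, e1]
      have h3 := congrArg η h2
      rw [LinearMap.mem_ker.1 w.2, map_smul, smul_eq_mul] at h3
      rcases mul_eq_zero.1 h3.symm with h4 | h4
      · rw [h4, zero_smul] at h2
        exact Subtype.ext h2
      · exact absurd h4 hbx
    refine same h hx (hD (LinearEquiv.ofInjectiveEndo f hinj)) ?_ ?_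
    · intro w hw hbw
      apply hbx
      rw [← hbw]
      have e1 : b⁻¹ (b w) = w := b.symm_apply_apply _
      rw [e1, hw]
    · intro w hw
      obtain ⟨w, rfl⟩ : ∃ w' : LinearMap.ker η, (w' : R) = w := ⟨⟨w, hw⟩, rfl⟩
      refine ⟨η (b w), ?_⟩
      rw [De_coe]
      have : ((LinearEquiv.ofInjectiveEndo f hinj w : LinearMap.ker η) : R) =
        b w - η (b w) • x := rfl
      rw [this]
      module
  by_cases hbx : η (b⁻¹ x) = 0
  · -- a vector of the kernel which is moved out
    obtain ⟨p, hp, hpb⟩ : ∃ p : R, η p = 0 ∧ η (b⁻¹ p) ≠ 0 := by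
      by_contra hcon
      push Not at hcon
      have h1 : ∀ v, η (b⁻¹ v) = 0 := by
        intro v
        have e : v = (v - η v • x) + η v • x := by abel
        rw [e, map_add, map_add, map_smul, map_smul, hbx, smul_zero, add_zero]
        exact hcon _ (by rw [map_sub, map_smul, hx, smul_eq_mul, mul_one, sub_self])
      have h2 := h1 (b x)
      have e1 : b⁻¹ (b x) = x := b.symm_apply_apply _
      rw [e1, hx] at h2
      exact one_ne_zero h2
    let f : R →ₗ[F] R := LinearMap.id + η.smulRight p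
    have hf : Function.Injective f := by
      rw [← LinearMap.ker_eq_bot, LinearMap.ker_eq_bot']
      intro v hv
      have hv' : v + η v • p = 0 := hv
      have h3 := congrArg η hv'
      rw [map_add, map_smul, hp, smul_zero, add_zero, map_zero] at h3
      rw [h3, zero_smul, add_zero] at hv'
      exact hv'
    let k : R ≃ₗ[F] R := LinearEquiv.ofInjectiveEndo f hf
    have hk : ∀ v, k v = v + η v • p := fun v => rfl
    have h1 : (1 : R ≃ₗ[F] R) ∈ S := by
      refine hgood 1 ?_
      rw [inv_one]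
      change η x ≠ 0
      rw [hx]
      exact one_ne_zero
    have h2 : 1 * k ∈ S := h.right _ h1 k p hk
    have h3 : k⁻¹ * b ∈ S := by
      refine hgood _ ?_
      rw [mul_inv_rev, inv_inv, LinearEquiv.mul_apply, hk, hx, one_smul, map_add, map_add, hbx,
        zero_add]
      exact hpb
    have h4 := h.mul _ h2 _ h3
    rw [one_mul, mul_inv_cancel_left] at h4
    exact h4
  · exact hgood b hbx

end Pool.Agent.P2a19ds
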