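import Pool.Agent.Lib.P2a19db.Criterion

/-!
The isometry group of a bilinear form.
-/

set_option autoImplicit false

namespace Pool.Agent.P2a19ds

open Module Pool.Agent.P2a19db

variable {F V : Type*} [Field F] [AddCommGroup V] [Module F V]

/-- the group of the automorphisms preserving the bilinear form `B` -/
def Sp (B : LinearMap.BilinForm F V) : Subgroup (V ≃ₗ[F] V) where
  carrier := {g | ∀ v w, B (g v) (g w) = B v w}
  mul_mem' {g h} hg hh v w := by
    rw [LinearEquiv.mul_apply, LinearEquiv.mul_apply, hg, hh]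
  one_mem' v w := rfl
  inv_mem' {g} hg v w := by
    have h := hg (g⁻¹ v) (g⁻¹ w)
    have e1 : g (g⁻¹ v) = v := g.apply_symm_apply v
    have e2 : g (g⁻¹ w) = w := g.apply_symm_apply w
    rw [e1, e2] at h
    exact h.symm

lemma mem_Sp {B : LinearMap.BilinForm F V} {g : V ≃ₗ[F] V} :
    g ∈ Sp B ↔ ∀ v w, B (g v) (g w) = B v w := Iff.rfl

end Pool.Agent.P2a19ds
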