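import Pool.Agent.Lib.P2a19ds.Defs

/-!
Elementary facts on the symplectic group over an arbitrary field.
-/

set_option autoImplicit false

namespace Pool.Agent.P2a19ds

open Module Pool.Agent.P2a19db

variable {F V : Type*} [Field F] [AddCommGroup V] [Module F V] [FiniteDimensional F V]
  {B : LinearMap.BilinForm F V}

/-- a linear map preserving a nondegenerate form belongs to its isometry group -/
lemma exists_of_preserve (hB : B.Nondegenerate) (T : V →ₗ[F] V)
    (hT : ∀ v w, B (T v) (T w) = B v w) : ∃ g ∈ Sp B, ∀ v, g v = T v := by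
  have hinj : Function.Injective T := by
    rw [injective_iff_map_eq_zero]
    intro v hv
    apply hB.1 v
    intro w
    rw [← hT, hv, map_zero, LinearMap.zero_apply]
  refine ⟨LinearEquiv.ofInjectiveEndo T hinj, ?_, fun v => ?_⟩
  · intro v w
    exact hT v w
  · rfl

lemma trans_aux (hB : B.Nondegenerate) (hA : B.IsAlt) {u v : V} (h : B v u ≠ 0) :
    ∃ g ∈ Sp B, g u = v := by
  obtain ⟨g, hg, hgT⟩ := exists_of_preserve hB
    (LinearMap.id + (B v u)⁻¹ • (B (u - v)).smulRight (u - v)) (by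
      intro x y
      have h1 : B (u - v) (u - v) = 0 := hA _
      have h2 : B x (u - v) = - B (u - v) x := (hA.neg_eq _ _).symm
      simp only [LinearMap.add_apply, LinearMap.id_apply, LinearMap.smul_apply,
        LinearMap.smulRight_apply, map_add, map_smul, smul_eq_mul, h1, h2]
      ring)
  refine ⟨g, hg, ?_⟩
  rw [hgT]
  have h3 : B (u - v) u = - B v u := by
    have : B u u = 0 := hA _
    rw [map_sub, LinearMap.sub_apply, this, zero_sub]
  rw [LinearMap.add_apply, LinearMap.id_apply, LinearMap.smul_apply, LinearMap.smulRight_apply,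
    h3, smul_smul, mul_neg, inv_mul_cancel₀ h, neg_smul, one_smul]
  abel

theorem trans_vectors (hB : B.Nondegenerate) (hA : B.IsAlt) {u v : V} (hu : u ≠ 0) (hv : v ≠ 0) :
    ∃ g ∈ Sp B, g u = v := by
  obtain ⟨a, ha⟩ : ∃ a, B u a ≠ 0 := by
    by_contra hcon
    push Not at hcon
    exact hu (hB.1 u hcon)
  obtain ⟨b, hb⟩ : ∃ b, B v b ≠ 0 := by
    by_contra hcon
    push Not at hcon
    exact hv (hB.1 v hcon)
  obtain ⟨w, hw1, hw2⟩ : ∃ w, B u w ≠ 0 ∧ B v w ≠ 0 := by
    by_cases h1 : B v a = 0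
    · by_cases h2 : B u b = 0
      · refine ⟨a + b, ?_, ?_⟩
        · rw [map_add, h2, add_zero]; exact ha
        · rw [map_add, h1, zero_add]; exact hb
      · exact ⟨b, h2, hb⟩
    · exact ⟨a, ha, h1⟩
  have hw1' : B w u ≠ 0 := by
    rw [← hA.neg_eq]
    exact neg_ne_zero.2 hw1
  obtain ⟨g₁, hg₁, e₁⟩ := trans_aux hB hA hw1'
  obtain ⟨g₂, hg₂, e₂⟩ := trans_aux hB hA hw2
  refine ⟨g₂ * g₁, (Sp B).mul_mem hg₂ hg₁, ?_⟩
  rw [LinearEquiv.mul_apply, e₁, e₂]

theorem transOn_one (hB : B.Nondegenerate) (hA : B.IsAlt) : TransOn (Sp B) 1 := by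
  have key : ∀ U : Submodule F V, finrank F U = 1 → ∃ u : V, u ≠ 0 ∧ U = Submodule.span F {u} := by
    intro U hU
    obtain ⟨u, hu, hu2⟩ := finrank_eq_one_iff'.1 hU
    refine ⟨u, fun h => hu (Subtype.ext h), ?_⟩
    apply le_antisymm
    · intro w hw
      obtain ⟨c, hc⟩ := hu2 ⟨w, hw⟩
      rw [Submodule.mem_span_singleton]
      exact ⟨c, congrArg Subtype.val hc⟩
    · rw [Submodule.span_singleton_le_iff_mem]
      exact u.2
  intro U W hU hW
  obtain ⟨u, hu, rfl⟩ := key U hU
  obtain ⟨w, hw, rfl⟩ := key W hW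
  obtain ⟨g, hg, e⟩ := trans_vectors hB hA hu hw
  refine ⟨g, hg, ?_⟩
  rw [Submodule.map_span, Set.image_singleton]
  have : (g : V →ₗ[F] V) u = w := e
  rw [this]

theorem transOn_hyper (hB : B.Nondegenerate) (hA : B.IsAlt) :
    TransOn (Sp B) (finrank F V - 1) := by
  intro U W hU hW
  rcases Nat.eq_zero_or_pos (finrank F V) with hn | hn
  · refine ⟨1, (Sp B).one_mem, ?_⟩
    have : Subsingleton V := finrank_zero_iff.1 hn
    exact Subsingleton.elim _ _
  have key : ∀ U : Submodule F V, finrank F U = finrank F V - 1 →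
      ∃ x : V, x ≠ 0 ∧ U = LinearMap.ker (B x) := by
    intro U hU
    have hlt : U < ⊤ := by
      rw [lt_top_iff_ne_top]
      rintro rfl
      rw [finrank_top] at hU
      omega
    obtain ⟨f, hf, hle⟩ := Submodule.exists_le_ker_of_lt_top U hlt
    have hfx : B ((B.toDual hB).symm f) = f := by
      ext v
      exact LinearMap.BilinForm.apply_toDual_symm_apply f v
    refine ⟨(B.toDual hB).symm f, ?_, ?_⟩
    · intro h
      apply hf
      rw [← hfx, h, map_zero]
    · rw [hfx]
      apply Submodule.eq_of_le_of_finrank_le hle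
      have h1 := f.finrank_range_add_finrank_ker
      have h2 : 1 ≤ finrank F (LinearMap.range f) := by
        rw [Nat.one_le_iff_ne_zero]
        intro h0
        apply hf
        rw [← LinearMap.range_eq_bot]
        exact Submodule.finrank_eq_zero.1 h0
      omega
  obtain ⟨x, hx, rfl⟩ := key U hU
  obtain ⟨y, hy, rfl⟩ := key W hW
  obtain ⟨g, hg, e⟩ := trans_vectors hB hA hx hy
  refine ⟨g, hg, ?_⟩
  apply Submodule.eq_of_le_of_finrank_eq
  · rintro _ ⟨u, hu, rfl⟩
    rw [LinearMap.mem_ker, ← e]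
    have := hg x u
    rw [SetLike.mem_coe, LinearMap.mem_ker] at hu
    rw [hu] at this
    exact this
  · rw [hW, ← hU]
    exact LinearEquiv.finrank_map_eq g _

section Ext

variable {x y : V}

/-- the projection of `V` onto `ker (B x)` along `y` -/
noncomputable def pr (hxy : B x y = 1) : V →ₗ[F] LinearMap.ker (B x) :=
  LinearMap.codRestrict _ (LinearMap.id - (B x).smulRight y) (by
    intro v
    rw [LinearMap.mem_ker, LinearMap.sub_apply, LinearMap.id_apply, LinearMap.smulRight_apply,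
      map_sub, map_smul, hxy, smul_eq_mul, mul_one, sub_self])

lemma pr_coe (hxy : B x y = 1) (v : V) : (pr hxy v : V) = v - B x v • y := rfl

lemma pr_ker (hxy : B x y = 1) (v : LinearMap.ker (B x)) : pr hxy (v : V) = v := by
  apply Subtype.ext
  have h : B x (v : V) = 0 := v.2
  rw [pr_coe, h, zero_smul, sub_zero]

lemma pr_y (hxy : B x y = 1) : pr hxy y = 0 := by
  apply Subtype.ext
  rw [pr_coe, hxy, one_smul, sub_self]
  rfl

lemma decomp (hA : B.IsAlt) (hxy : B x y = 1) (v w : V) :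
    B v w = B (pr hxy v : V) (pr hxy w : V) + B x w * B (pr hxy v : V) y -
      B x v * B (pr hxy w : V) y := by
  have hyy : B y y = 0 := hA _
  have hyw : B y w = - B w y := (hA.neg_eq _ _).symm
  simp only [pr_coe, map_sub, LinearMap.sub_apply, map_smul, LinearMap.smul_apply, smul_eq_mul,
    hyy, hyw]
  ring

/-- Witt extension for a hyperplane -/
lemma ext_pres (hB : B.Nondegenerate) (hA : B.IsAlt) (hxy : B x y = 1)
    (k : LinearMap.ker (B x) ≃ₗ[F] LinearMap.ker (B x))
    (hk : ∀ v w : LinearMap.ker (B x), B (k v : V) (k w : V) = B (v : V) (w : V)) :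
    ∃ g ∈ Sp B, ∀ v : LinearMap.ker (B x), g v = k v := by
  let φ : V →ₗ[F] F :=
    (B.flip y) ∘ₗ (LinearMap.ker (B x)).subtype ∘ₗ (k.symm : _ →ₗ[F] _) ∘ₗ pr hxy
  have hφ : ∀ v, φ v = B (k.symm (pr hxy v) : V) y := fun v => rfl
  let u : V := (B.toDual hB).symm (-φ)
  have hu : ∀ v, B u v = - φ v := fun v => LinearMap.BilinForm.apply_toDual_symm_apply (-φ) v
  have huk : ∀ r : LinearMap.ker (B x), B u (k r : V) = - B (r : V) y := by
    intro r
    rw [hu, hφ, pr_ker, LinearEquiv.symm_apply_apply]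
  have hku : ∀ r : LinearMap.ker (B x), B (k r : V) u = B (r : V) y := by
    intro r
    rw [← hA.neg_eq, huk, neg_neg]
  have huu : B u u = 0 := hA _
  obtain ⟨g, hg, e⟩ := exists_of_preserve hB
    ((LinearMap.ker (B x)).subtype ∘ₗ (k : _ →ₗ[F] _) ∘ₗ pr hxy + (B x).smulRight u) (by
      intro v w
      have e1 : ∀ v, ((LinearMap.ker (B x)).subtype ∘ₗ (k : _ →ₗ[F] _) ∘ₗ pr hxy +
          (B x).smulRight u) v = (k (pr hxy v) : V) + B x v • u := fun v => rfl
      rw [e1, e1, decomp hA hxy v w]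
      simp only [map_add, LinearMap.add_apply, map_smul, LinearMap.smul_apply, smul_eq_mul, huk,
        hku, huu, hk]
      ring)
  refine ⟨g, hg, fun v => ?_⟩
  rw [e]
  have h : B x (v : V) = 0 := v.2
  show (k (pr hxy (v : V)) : V) + B x (v : V) • u = k v
  rw [pr_ker, h, zero_smul, add_zero]

theorem ext_left (hB : B.Nondegenerate) (hA : B.IsAlt) {x y : V} (hxy : B x y = 1)
    (k : LinearMap.ker (B x) ≃ₗ[F] LinearMap.ker (B x)) (ℓ : LinearMap.ker (B x) →ₗ[F] F)
    (hk : ∀ v : LinearMap.ker (B x), (k v : V) = v + ℓ v • x) :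
    ∃ g ∈ Sp B, ∀ v : LinearMap.ker (B x), g v = k v := by
  apply ext_pres hB hA hxy k
  intro v w
  have h1 : B x (v : V) = 0 := v.2
  have h2 : B x (w : V) = 0 := w.2
  have h3 : B (v : V) x = 0 := by rw [← hA.neg_eq, h1, neg_zero]
  have h4 : B x x = 0 := hA _
  rw [hk, hk]
  simp only [map_add, LinearMap.add_apply, map_smul, LinearMap.smul_apply, smul_eq_mul, h2, h3,
    h4, mul_zero, add_zero]

theorem ext_right (hB : B.Nondegenerate) (hA : B.IsAlt) {x y : V} (hxy : B x y = 1)
    (k : LinearMap.ker (B x) ≃ₗ[F] LinearMap.ker (B x)) (p : LinearMap.ker (B x))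
    (hk : ∀ v : LinearMap.ker (B x), (k v : V) = v + B v y • (p : V)) :
    ∃ g ∈ Sp B, (∃ μ : F, g y = μ • y) ∧
      ∀ v : LinearMap.ker (B x), ∃ c : F, g v = k v + c • y := by
  have hm : 1 + B (p : V) y ≠ 0 := by
    intro hm
    have h1 : k p = 0 := by
      apply Subtype.ext
      rw [hk]
      have : (p : V) + B (p : V) y • (p : V) = (1 + B (p : V) y) • (p : V) := by
        rw [add_smul, one_smul]
      rw [this, hm, zero_smul]
      rfl
    have h2 : p = 0 := k.map_eq_zero_iff.1 h1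
    rw [h2] at hm
    simp at hm
  set m : F := 1 + B (p : V) y with hmd
  have hyy : B y y = 0 := hA _
  have hpp : B (p : V) (p : V) = 0 := hA _
  have hyp : B y (p : V) = - B (p : V) y := (hA.neg_eq _ _).symm
  obtain ⟨g, hg, e⟩ := exists_of_preserve hB
    ((LinearMap.ker (B x)).subtype ∘ₗ (k : _ →ₗ[F] _) ∘ₗ pr hxy +
      (m⁻¹ • ((B.flip (p : V)) ∘ₗ (LinearMap.ker (B x)).subtype ∘ₗ pr hxy + B x)).smulRight y) (by
      intro v w
      have e1 : ∀ v, ((LinearMap.ker (B x)).subtype ∘ₗ (k : _ →ₗ[F] _) ∘ₗ pr hxy +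
          (m⁻¹ • ((B.flip (p : V)) ∘ₗ (LinearMap.ker (B x)).subtype ∘ₗ pr hxy + B x)).smulRight y)
            v = (k (pr hxy v) : V) + (m⁻¹ * (B (pr hxy v : V) (p : V) + B x v)) • y := fun v => rfl
      rw [e1, e1, decomp hA hxy v w, hk, hk]
      generalize pr hxy v = r
      generalize pr hxy w = r'
      generalize B x v = t
      generalize B x w = t'
      have a1 : B y (r' : V) = - B (r' : V) y := (hA.neg_eq _ _).symm
      have a2 : B (p : V) (r' : V) = - B (r' : V) (p : V) := (hA.neg_eq _ _).symm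
      simp only [map_add, LinearMap.add_apply, map_smul, LinearMap.smul_apply, smul_eq_mul, hyy,
        hpp, hyp, a1, a2]
      have hb : B (p : V) y = m - 1 := by rw [hmd]; ring
      rw [hb]
      field_simp
      ring)
  refine ⟨g, hg, ⟨m⁻¹, ?_⟩, fun v => ⟨m⁻¹ * B (v : V) (p : V), ?_⟩⟩
  · rw [e]
    show (k (pr hxy y) : V) + (m⁻¹ * (B (pr hxy y : V) (p : V) + B x y)) • y = m⁻¹ • y
    rw [pr_y, map_zero, hxy]
    simp
  · rw [e]
    have h : B x (v : V) = 0 := v.2
    show (k (pr hxy (v : V)) : V) + (m⁻¹ * (B (pr hxy (v : V) : V) (p : V) + B x (v : V))) • y =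
      k v + (m⁻¹ * B (v : V) (p : V)) • y
    rw [pr_ker, h, add_zero]

end Ext

end Pool.Agent.P2a19ds
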