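import Pool.Agent.Lib.P2a19ds.Elem

/-!
The groups containing the symplectic group.
-/

set_option autoImplicit false

namespace Pool.Agent.P2a19ds

open Module Pool.Agent.P2a19db

section Gen

variable {F V : Type*} [Field F] [AddCommGroup V] [Module F V] [FiniteDimensional F V]

/-- `G` contains all transvections -/
def AllTrans (G : Subgroup (V ≃ₗ[F] V)) : Prop :=
  ∀ (f : V →ₗ[F] F) (p : V) (g : V ≃ₗ[F] V), f p = 0 → (∀ w, g w = w + f w • p) → g ∈ G

omit [FiniteDimensional F V] in
/-- a functional vanishing on `U` with value one at two vectors -/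
lemma exists_two_one {U : Submodule F V} {v b : V} (hb : b ∉ U)
    (hv : v ∉ U ⊔ Submodule.span F {b}) :
    ∃ f : V →ₗ[F] F, U ≤ LinearMap.ker f ∧ f b = 1 ∧ f v = 1 := by
  obtain ⟨f, hfb, hfU⟩ := Submodule.exists_le_ker_of_notMem hb
  obtain ⟨h, hhv, hhU⟩ := Submodule.exists_le_ker_of_notMem hv
  have hhb : h b = 0 := hhU (Submodule.mem_sup_right (Submodule.mem_span_singleton_self b))
  refine ⟨(f b)⁻¹ • f + ((1 - (f b)⁻¹ * f v) * (h v)⁻¹) • h, ?_, ?_, ?_⟩
  · intro u hu
    have h1 : f u = 0 := hfU hu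
    have h2 : h u = 0 := hhU (Submodule.mem_sup_left hu)
    simp [h1, h2]
  · simp [hhb, hfb]
  · simp only [LinearMap.add_apply, LinearMap.smul_apply, smul_eq_mul]
    field_simp
    ring

omit [FiniteDimensional F V] in
lemma move {G : Subgroup (V ≃ₗ[F] V)} (hG : AllTrans G) {U : Submodule F V} {v b : V}
    (f : V →ₗ[F] F) (hfU : U ≤ LinearMap.ker f) (hb : f b = 1) (hv : f v = 1) :
    ∃ t ∈ G, (∀ u ∈ U, t u = u) ∧ t v = b := by
  have h : f (b - v) = 0 := by rw [map_sub, hb, hv, sub_self]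
  refine ⟨LinearEquiv.transvection h, hG f (b - v) _ h fun w => rfl, fun u hu => ?_, ?_⟩
  · have : f u = 0 := hfU hu
    rw [LinearEquiv.transvection.apply, this, zero_smul, add_zero]
  · rw [LinearEquiv.transvection.apply, hv, one_smul]
    abel

lemma move2 {G : Subgroup (V ≃ₗ[F] V)} (hG : AllTrans G) {U : Submodule F V}
    (hU : finrank F U + 2 ≤ finrank F V) {v b : V} (hv : v ∉ U) (hb : b ∉ U) :
    ∃ t ∈ G, (∀ u ∈ U, t u = u) ∧ t v = b := by
  by_cases hvb : v ∈ U ⊔ Submodule.span F {b}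
  · obtain ⟨w, hw⟩ : ∃ w, w ∉ U ⊔ Submodule.span F {b} := by
      by_contra hcon
      push Not at hcon
      have h0 : U ⊔ Submodule.span F {b} = ⊤ := by
        rw [eq_top_iff]
        intro w _
        exact hcon w
      have h1 := Submodule.finrank_sup_span_singleton hb
      rw [h0, finrank_top] at h1
      omega
    have hw2 : w ∉ U ⊔ Submodule.span F {v} := by
      intro h
      apply hw
      have : U ⊔ Submodule.span F {v} ≤ U ⊔ Submodule.span F {b} :=
        sup_le le_sup_left (by rw [Submodule.span_singleton_le_iff_mem]; exact hvb)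
      exact this h
    obtain ⟨f, hf1, hf2, hf3⟩ := exists_two_one hv hw2
    obtain ⟨h, hh1, hh2, hh3⟩ := exists_two_one hb hw
    obtain ⟨t1, ht1, ht2, ht3⟩ := move hG f hf1 hf3 hf2
    obtain ⟨t2, ht4, ht5, ht6⟩ := move hG h hh1 hh2 hh3
    refine ⟨t2 * t1, G.mul_mem ht4 ht1, fun u hu => ?_, ?_⟩
    · rw [LinearEquiv.mul_apply, ht2 u hu, ht5 u hu]
    · rw [LinearEquiv.mul_apply, ht3, ht6]
  · obtain ⟨f, hf1, hf2, hf3⟩ := exists_two_one hb hvb
    exact move hG f hf1 hf2 hf3

lemma reduce {G : Subgroup (V ≃ₗ[F] V)} (hG : AllTrans G) : ∀ (m : ℕ) (U : Submodule F V)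
    (g : V ≃ₗ[F] V), (∀ u ∈ U, g u = u) → finrank F V ≤ finrank F U + 1 + m →
    ∃ t ∈ G, ∃ H : Submodule F V, finrank F V ≤ finrank F H + 1 ∧ ∀ u ∈ H, (t * g) u = u := by
  intro m
  induction m with
  | zero =>
    intro U g hg hU
    exact ⟨1, G.one_mem, U, hU, fun u hu => by rw [one_mul]; exact hg u hu⟩
  | succ m ih =>
    intro U g hg hU
    by_cases hlt : finrank F V ≤ finrank F U + 1 + m
    · exact ih U g hg hlt
    · push Not at hlt
      obtain ⟨b, hb⟩ : ∃ b, b ∉ U := by
        by_contra hcon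
        push Not at hcon
        have h0 : U = ⊤ := by
          rw [eq_top_iff]
          intro w _
          exact hcon w
        rw [h0, finrank_top] at hlt
        omega
      have hv : g b ∉ U := by
        intro h
        have h1 := hg _ h
        have h2 : g b = b := g.injective h1
        rw [h2] at h
        exact hb h
      obtain ⟨t, ht, htU, htb⟩ := move2 hG (by omega) hv hb
      obtain ⟨t', ht', H, hH, hfix⟩ := ih (U ⊔ Submodule.span F {b}) (t * g) (by
        intro u hu
        rw [Submodule.mem_sup] at hu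
        obtain ⟨u1, hu1, u2, hu2, rfl⟩ := hu
        obtain ⟨c, rfl⟩ := Submodule.mem_span_singleton.1 hu2
        rw [map_add, map_smul, LinearEquiv.mul_apply, LinearEquiv.mul_apply, hg u1 hu1,
          htU u1 hu1, htb]) (by
        rw [Submodule.finrank_sup_span_singleton hb]
        omega)
      exact ⟨t' * t, G.mul_mem ht' ht, H, hH, fun u hu => by rw [mul_assoc]; exact hfix u hu⟩

/-- the special linear group is generated by the transvections -/
theorem sl_of_allTrans {G : Subgroup (V ≃ₗ[F] V)} (hG : AllTrans G) (g : V ≃ₗ[F] V)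
    (hg : LinearMap.det (g : V →ₗ[F] V) = 1) : g ∈ G := by
  let S : Subgroup (V ≃ₗ[F] V) := G ⊓ (LinearEquiv.det : (V ≃ₗ[F] V) →* Fˣ).ker
  have hS : AllTrans S := by
    intro f p k hfp hk
    refine ⟨hG f p k hfp hk, ?_⟩
    have h1 : k = LinearEquiv.transvection hfp := LinearEquiv.ext fun w => hk w
    rw [h1]
    exact LinearEquiv.transvection.det_eq_one hfp
  have hgd : LinearEquiv.det g = 1 := by
    rw [← Units.val_inj, LinearEquiv.coe_det, hg, Units.val_one]
  obtain ⟨t, ht, H, hH, hfix⟩ := reduce hS (finrank F V) ⊥ g (by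
    intro u hu
    rw [Submodule.mem_bot] at hu
    rw [hu, map_zero]) (by omega)
  have htd : LinearEquiv.det t = 1 := ht.2
  have hdet : LinearMap.det ((t * g : V ≃ₗ[F] V) : V →ₗ[F] V) = 1 := by
    rw [← LinearEquiv.coe_det, map_mul, htd, hgd, one_mul, Units.val_one]
  have hmem : t * g ∈ S := by
    by_cases hHt : H = ⊤
    · have h1 : t * g = 1 := LinearEquiv.ext fun v => hfix v (by rw [hHt]; exact Submodule.mem_top)
      rw [h1]
      exact S.one_mem
    · obtain ⟨f, hf, hle⟩ := Submodule.exists_le_ker_of_lt_top H (lt_top_iff_ne_top.2 hHt)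
      obtain ⟨b, hb⟩ : ∃ b, f b ≠ 0 := by
        by_contra hcon
        push Not at hcon
        exact hf (LinearMap.ext hcon)
      have hker : H = LinearMap.ker f := by
        apply Submodule.eq_of_le_of_finrank_le hle
        have h1 := f.finrank_range_add_finrank_ker
        have h2 : 1 ≤ finrank F (LinearMap.range f) := by
          rw [Nat.one_le_iff_ne_zero]
          intro h0
          apply hf
          rw [← LinearMap.range_eq_bot]
          exact Submodule.finrank_eq_zero.1 h0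
        omega
      have happ : ∀ w, (t * g) w = w + f w • ((f b)⁻¹ • ((t * g) b - b)) := by
        intro w
        have h1 : w - (f w * (f b)⁻¹) • b ∈ H := by
          rw [hker, LinearMap.mem_ker, map_sub, map_smul, smul_eq_mul, mul_assoc,
            inv_mul_cancel₀ hb, mul_one, sub_self]
        have h2 := hfix _ h1
        rw [map_sub, map_smul, sub_eq_iff_eq_add] at h2
        rw [h2, smul_smul, smul_sub]
        abel
      have hx : f ((f b)⁻¹ • ((t * g) b - b)) = 0 := by
        have h1 : ((t * g : V ≃ₗ[F] V) : V →ₗ[F] V) =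
            LinearMap.transvection f ((f b)⁻¹ • ((t * g) b - b)) := LinearMap.ext happ
        rw [h1, LinearMap.transvection.det] at hdet
        linear_combination hdet
      exact hS f _ _ hx happ
  have h2 : g = t⁻¹ * (t * g) := by group
  rw [h2]
  exact G.mul_mem (G.inv_mem ht.1) hmem.1

end Gen

section Over

variable {F V : Type*} [Field F] [AddCommGroup V] [Module F V]
  {B : LinearMap.BilinForm F V}

/-- the map `w ↦ w + B z w • u` belongs to `G` -/
def Q (B : LinearMap.BilinForm F V) (G : Subgroup (V ≃ₗ[F] V)) (z u : V) : Prop :=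
  ∀ g : V ≃ₗ[F] V, (∀ w, g w = w + B z w • u) → g ∈ G

lemma Q.conj {G : Subgroup (V ≃ₗ[F] V)} {z u : V} (h : Q B G z u) {s : V ≃ₗ[F] V}
    (hsG : s ∈ G) (hs : s ∈ Sp B) : Q B G (s z) (s u) := by
  intro g hg
  have h1 : s⁻¹ * g * s ∈ G := by
    apply h
    intro w
    have h2 : (s⁻¹ * g * s) w = s.symm (g (s w)) := rfl
    rw [h2, hg, hs z w, map_add, map_smul, LinearEquiv.symm_apply_apply,
      LinearEquiv.symm_apply_apply]
  have h3 : g = s * (s⁻¹ * g * s) * s⁻¹ := by group
  rw [h3]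
  exact G.mul_mem (G.mul_mem hsG h1) (G.inv_mem hsG)

lemma exists_perp (hB : B.Nondegenerate) {u z : V} (hu : u ≠ 0)
    (hzu : z ∉ Submodule.span F {u}) : ∃ a, B u a = 0 ∧ B z a ≠ 0 := by
  by_contra hcon
  push Not at hcon
  obtain ⟨y, hy⟩ : ∃ y, B u y ≠ 0 := by
    by_contra h
    push Not at h
    exact hu (hB.1 u h)
  apply hzu
  rw [Submodule.mem_span_singleton]
  refine ⟨(B u y)⁻¹ * B z y, ?_⟩
  symm
  rw [← sub_eq_zero]
  apply hB.1
  intro v
  have h1 := hcon (v - ((B u y)⁻¹ * B u v) • y) (by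
    rw [map_sub, map_smul, smul_eq_mul, mul_comm (B u y)⁻¹, mul_assoc, inv_mul_cancel₀ hy,
      mul_one, sub_self])
  rw [map_sub, map_smul, smul_eq_mul] at h1
  rw [map_sub, LinearMap.sub_apply, map_smul, LinearMap.smul_apply, smul_eq_mul]
  linear_combination h1

variable [FiniteDimensional F V]

lemma exists_transvection (hB : B.Nondegenerate) (hA : B.IsAlt) (c : F) (p : V) :
    ∃ g ∈ Sp B, ∀ w, g w = w + (c * B p w) • p := by
  obtain ⟨g, hg, hgT⟩ := exists_of_preserve hB (LinearMap.id + c • (B p).smulRight p) (by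
      intro x y
      have h1 : B p p = 0 := hA _
      have h2 : B x p = - B p x := (hA.neg_eq _ _).symm
      simp only [LinearMap.add_apply, LinearMap.id_apply, LinearMap.smul_apply,
        LinearMap.smulRight_apply, map_add, map_smul, smul_eq_mul, h1, h2]
      ring)
  exact ⟨g, hg, fun w => by rw [hgT]; simp [mul_smul]⟩

lemma stab_aux (hB : B.Nondegenerate) (hA : B.IsAlt) {u z z' : V} (hz : B z u = 0)
    (hz' : B z' u = 0) (h : B z' z ≠ 0) : ∃ s ∈ Sp B, s u = u ∧ s z = z' := by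
  obtain ⟨g, hg, e⟩ := exists_transvection hB hA (B z' z)⁻¹ (z - z')
  refine ⟨g, hg, ?_, ?_⟩
  · rw [e, map_sub, LinearMap.sub_apply, hz, hz', sub_self, mul_zero, zero_smul, add_zero]
  · have h1 : B z z = 0 := hA _
    rw [e, map_sub, LinearMap.sub_apply, h1, zero_sub, mul_neg, inv_mul_cancel₀ h, neg_smul,
      one_smul]
    abel

lemma stab_trans (hB : B.Nondegenerate) (hA : B.IsAlt) {u z z' : V} (hu : u ≠ 0)
    (hz : B z u = 0) (hz' : B z' u = 0) (hzu : z ∉ Submodule.span F {u})
    (hzu' : z' ∉ Submodule.span F {u}) : ∃ s ∈ Sp B, s u = u ∧ s z = z' := by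
  obtain ⟨a, ha0, ha⟩ := exists_perp hB hu hzu
  obtain ⟨b, hb0, hb⟩ := exists_perp hB hu hzu'
  obtain ⟨w, hw0, hw1, hw2⟩ : ∃ w, B u w = 0 ∧ B z w ≠ 0 ∧ B z' w ≠ 0 := by
    by_cases h1 : B z' a = 0
    · by_cases h2 : B z b = 0
      · refine ⟨a + b, ?_, ?_, ?_⟩
        · rw [map_add, ha0, hb0, add_zero]
        · rw [map_add, h2, add_zero]; exact ha
        · rw [map_add, h1, zero_add]; exact hb
      · exact ⟨b, hb0, h2, hb⟩
    · exact ⟨a, ha0, ha, h1⟩
  have hwu : B w u = 0 := by rw [← hA.neg_eq, hw0, neg_zero]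
  have hwz : B w z ≠ 0 := by
    rw [← hA.neg_eq]
    exact neg_ne_zero.2 hw1
  obtain ⟨s₁, hs₁, e₁, e₁'⟩ := stab_aux hB hA hz hwu hwz
  obtain ⟨s₂, hs₂, e₂, e₂'⟩ := stab_aux hB hA hwu hz' hw2
  refine ⟨s₂ * s₁, (Sp B).mul_mem hs₂ hs₁, ?_, ?_⟩
  · rw [LinearEquiv.mul_apply, e₁, e₂]
  · rw [LinearEquiv.mul_apply, e₁', e₂']

theorem overgroups (hB : B.Nondegenerate) (hA : B.IsAlt) {G : Subgroup (V ≃ₗ[F] V)} (hG : Sp B ≤ G) :
    (∀ g ∈ G, ∃ μ : F, ∀ v w, B (g v) (g w) = μ * B v w) ∨
      (∀ g : V ≃ₗ[F] V, LinearMap.det (g : V →ₗ[F] V) = 1 → g ∈ G) := by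
  by_cases hsim : ∀ g ∈ G, ∃ μ : F, ∀ v w, B (g v) (g w) = μ * B v w
  · exact Or.inl hsim
  right
  push Not at hsim
  obtain ⟨g, hgG, hg⟩ := hsim
  -- the operator `T` with `B (T v) w = B (g v) (g w)`
  let T : V →ₗ[F] V := ((B.toDual hB).symm : _ →ₗ[F] V) ∘ₗ
    (LinearMap.compl₁₂ B (g : V →ₗ[F] V) (g : V →ₗ[F] V))
  have hT : ∀ v w, B (T v) w = B (g v) (g w) := fun v w =>
    LinearMap.BilinForm.apply_toDual_symm_apply (hB := hB)
      (LinearMap.compl₁₂ B (g : V →ₗ[F] V) (g : V →ₗ[F] V) v) w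
  obtain ⟨u, hu⟩ : ∃ u, LinearIndependent F ![u, T u] := by
    by_contra hcon
    push Not at hcon
    obtain ⟨a, ha⟩ := LinearMap.exists_eq_smul_id_of_forall_notLinearIndependent hcon
    obtain ⟨v, w, hvw⟩ := hg a
    apply hvw
    rw [← hT, ha]
    simp
  have hu0 : u ≠ 0 := hu.ne_zero 0
  have hTu : T u ∉ Submodule.span F {u} := by
    rw [Submodule.mem_span_singleton]
    rintro ⟨a, ha⟩
    exact (LinearIndependent.pair_iff' hu0).1 hu a ha
  have hTuu : B (T u) u = 0 := by rw [hT]; exact hA _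
  have hQ0 : Q B G (T u) u := by
    intro k hk
    obtain ⟨h, hh, hhw⟩ := exists_transvection hB hA 1 (g u)
    have h1 : k = g⁻¹ * h * g := by
      ext w
      have h2 : (g⁻¹ * h * g) w = g.symm (h (g w)) := rfl
      rw [h2, hhw, hk, map_add, map_smul, LinearEquiv.symm_apply_apply,
        LinearEquiv.symm_apply_apply, one_mul, hT]
    rw [h1]
    exact G.mul_mem (G.mul_mem (G.inv_mem hgG) (hG hh)) hgG
  have hQ : ∀ z, B z u = 0 → Q B G z u := by
    intro z hz
    by_cases hzu : z ∈ Submodule.span F {u}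
    · obtain ⟨c, rfl⟩ := Submodule.mem_span_singleton.1 hzu
      intro k hk
      obtain ⟨h, hh, hhw⟩ := exists_transvection hB hA c u
      have h1 : k = h := by
        ext w
        rw [hk, hhw, map_smul, LinearMap.smul_apply, smul_eq_mul]
      rw [h1]
      exact hG hh
    · obtain ⟨s, hs, e1, e2⟩ := stab_trans hB hA hu0 hTuu hz hTu hzu
      have := hQ0.conj (hG hs) hs
      rwa [e1, e2] at this
  apply sl_of_allTrans
  intro f p k hfp hk
  by_cases hp : p = 0
  · have h1 : k = 1 := by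
      ext w
      rw [hk, hp, smul_zero, add_zero]
      rfl
    rw [h1]
    exact G.one_mem
  · obtain ⟨s, hs, e⟩ := trans_vectors hB hA hu0 hp
    set z : V := (B.toDual hB).symm f with hz
    have hzf : ∀ w, B z w = f w := fun w => LinearMap.BilinForm.apply_toDual_symm_apply f w
    have h1 : B (s.symm z) u = 0 := by
      rw [← hs, LinearEquiv.apply_symm_apply, e, hzf, hfp]
    have h2 := (hQ _ h1).conj (hG hs) hs
    rw [LinearEquiv.apply_symm_apply, e] at h2
    apply h2
    intro w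
    rw [hk, hzf]

end Over

end Pool.Agent.P2a19ds
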