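import Pool.Agent.Lib.P2a19db.Criterion

/-!
Two singular endomorphisms of equal rank differ by factors of determinant one.
-/

set_option autoImplicit false

namespace Pool.Agent.P2a19ds

open Module Pool.Agent.P2a19db

variable {F V : Type*} [Field F] [AddCommGroup V] [Module F V] [FiniteDimensional F V]

/-- a dilation with prescribed determinant -/
lemma exists_dil (φ : V →ₗ[F] F) (v : V) (hv : φ v = 1) (c : F) (hc : c ≠ 0) :
    ∃ k : V ≃ₗ[F] V, LinearMap.det (k : V →ₗ[F] V) = c ∧ ∀ w, k w = w + ((c - 1) * φ w) • v := by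
  have h1 : 1 + φ ((c - 1) • v) = c := by
    rw [map_smul, hv, smul_eq_mul]; ring
  have h2 : IsUnit (1 + φ ((c - 1) • v)) := by
    rw [h1]; exact isUnit_iff_ne_zero.2 hc
  refine ⟨LinearEquiv.dilatransvection h2, ?_, fun w => ?_⟩
  · rw [LinearEquiv.dilatransvection.coe_toLinearMap, LinearMap.transvection.det, h1]
  · rw [← LinearEquiv.coe_coe, LinearEquiv.dilatransvection.coe_toLinearMap,
      LinearMap.transvection.apply, smul_smul, mul_comm]

theorem exists_gl_mul {a x : Module.End F V}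
    (hr : finrank F (LinearMap.range x) = finrank F (LinearMap.range a)) :
    ∃ g h : V ≃ₗ[F] V, x = (g : V →ₗ[F] V) * a * (h : V →ₗ[F] V) := by
  have hk : finrank F (LinearMap.ker x) = finrank F (LinearMap.ker a) := by
    have e1 := LinearMap.finrank_range_add_finrank_ker x
    have e2 := LinearMap.finrank_range_add_finrank_ker a
    omega
  let e := LinearEquiv.ofFinrankEq (LinearMap.ker x) (LinearMap.ker a) hk
  obtain ⟨h, hh⟩ := exists_aut_extend (LinearMap.ker x)
    ((LinearMap.ker a).subtype ∘ₗ (e : LinearMap.ker x →ₗ[F] LinearMap.ker a))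
    (by
      intro i j hij
      exact e.injective (Subtype.ext hij))
  have h1 : ∀ u, x u = 0 → a (h u) = 0 := by
    intro u hu
    rw [hh ⟨u, hu⟩]
    exact (e ⟨u, hu⟩).2
  have h2 : ∀ u, a (h u) = 0 → x u = 0 := by
    intro u hu
    obtain ⟨w, hw⟩ := e.surjective ⟨h u, hu⟩
    have h3 : h (w : V) = h u := by
      rw [hh w]
      exact congrArg Subtype.val hw
    rw [← h.injective h3]
    exact w.2
  obtain ⟨σ, hσ⟩ := exists_section a
  obtain ⟨g, hg⟩ := exists_aut_extend (LinearMap.range a)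
    (x ∘ₗ (h.symm : V →ₗ[F] V) ∘ₗ σ)
    (by
      rw [← LinearMap.ker_eq_bot, LinearMap.ker_eq_bot']
      intro i hi
      have h3 : x (h.symm (σ i)) = 0 := hi
      have h4 := h1 _ h3
      rw [h.apply_symm_apply, hσ] at h4
      exact Subtype.ext h4)
  refine ⟨g, h, ?_⟩
  ext v
  change x v = g (a (h v))
  have h3 : g (a (h v)) = x (h.symm (σ ⟨a (h v), ⟨h v, rfl⟩⟩)) := hg ⟨a (h v), ⟨h v, rfl⟩⟩
  rw [h3]
  have h4 : x (h.symm (σ ⟨a (h v), ⟨h v, rfl⟩⟩) - v) = 0 := by
    apply h2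
    rw [map_sub, map_sub, h.apply_symm_apply, hσ]
    exact sub_self _
  rw [map_sub, sub_eq_zero] at h4
  exact h4.symm

theorem exists_sl_mul {a x : Module.End F V} (ha : ¬ IsUnit a)
    (hr : finrank F (LinearMap.range x) = finrank F (LinearMap.range a)) :
    ∃ g h : V ≃ₗ[F] V, LinearMap.det (g : V →ₗ[F] V) = 1 ∧ LinearMap.det (h : V →ₗ[F] V) = 1 ∧
      x = (g : V →ₗ[F] V) * a * (h : V →ₗ[F] V) := by
  obtain ⟨g, h, hx⟩ := exists_gl_mul hr
  -- a vector outside the range and a vector in the kernel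
  have hker : LinearMap.ker a ≠ ⊥ := by
    intro h0
    exact ha ((LinearMap.isUnit_iff_ker_eq_bot a).2 h0)
  have hrange : LinearMap.range a ≠ ⊤ := by
    intro h0
    exact ha ((LinearMap.isUnit_iff_range_eq_top a).2 h0)
  have dg : LinearMap.det (g : V →ₗ[F] V) ≠ 0 := (LinearEquiv.isUnit_det' g).ne_zero
  have dh : LinearMap.det (h : V →ₗ[F] V) ≠ 0 := (LinearEquiv.isUnit_det' h).ne_zero
  obtain ⟨v, hv⟩ : ∃ v, v ∉ LinearMap.range a := by
    by_contra hc
    push Not at hc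
    exact hrange ((Submodule.eq_top_iff').2 hc)
  obtain ⟨φ, hφ, hφ0⟩ := Submodule.exists_le_ker_of_notMem hv
  obtain ⟨u, hu, hu0⟩ := (Submodule.ne_bot_iff _).1 hker
  obtain ⟨ψ, hψ, -⟩ := Submodule.exists_le_ker_of_notMem
    (p := (⊥ : Submodule F V)) (v := u) (fun hc => hu0 ((Submodule.mem_bot F).1 hc))
  obtain ⟨k, hk, hk'⟩ := exists_dil ((φ v)⁻¹ • φ) v (by simp [hφ])
    (LinearMap.det (g : V →ₗ[F] V))⁻¹ (inv_ne_zero dg)
  obtain ⟨l, hl, hl'⟩ := exists_dil ((ψ u)⁻¹ • ψ) u (by simp [hψ])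
    (LinearMap.det (h : V →ₗ[F] V))⁻¹ (inv_ne_zero dh)
  have ka : ∀ w, k (a w) = a w := by
    intro w
    have h1 : φ (a w) = 0 := hφ0 ⟨w, rfl⟩
    rw [hk', LinearMap.smul_apply, h1]
    simp
  have al : ∀ w, a (l w) = a w := by
    intro w
    have h1 : a u = 0 := hu
    rw [hl', map_add, map_smul, h1, smul_zero, add_zero]
  refine ⟨g * k, l * h, ?_, ?_, ?_⟩
  · rw [coe_mul', map_mul, hk, mul_inv_cancel₀ dg]
  · rw [coe_mul', map_mul, hl, inv_mul_cancel₀ dh]
  · rw [hx]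
    ext w
    change g (a (h w)) = g (k (a (l (h w))))
    rw [al, ka]

end Pool.Agent.P2a19ds
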