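import Pool.Agent.Lib.P2a19ds.Main
import Pool.Agent.Lib.P2a19ds.Over
import Pool.Agent.Lib.P2a19ds.Sl

/-!
Groups containing a symplectic group.
-/

set_option autoImplicit false

namespace Pool.Agent.P2a19ds

open Module Pool.Agent.P2a19db

variable {F V : Type*} [Field F] [AddCommGroup V] [Module F V] [FiniteDimensional F V]
  {B : LinearMap.BilinForm F V}

/-- Groups containing the special linear group. -/
theorem of_special {a : Module.End F V} (ha : ¬ IsUnit a) {G : Subgroup (V ≃ₗ[F] V)}
    (hG : ∀ g : V ≃ₗ[F] V, LinearMap.det (g : V →ₗ[F] V) = 1 → g ∈ G) : IsAutPair a G := by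
  refine isPair_of_rank ha fun x hx => ?_
  obtain ⟨g, h, hg, hh, rfl⟩ := exists_sl_mul ha hx
  exact mul_mem (mul_mem (g_mem (hG g hg)) a_mem) (g_mem (hG h hh))

/-- The criterion for the groups containing a symplectic group. -/
theorem symp (hB : B.Nondegenerate) (hA : B.IsAlt) {a : Module.End F V} (ha : ¬ IsUnit a)
    {G : Subgroup (V ≃ₗ[F] V)} (hG : Sp B ≤ G) :
    IsAutPair a G ↔
      (∀ g : V ≃ₗ[F] V, LinearMap.det (g : V →ₗ[F] V) = 1 → g ∈ G) ∨
        finrank F (LinearMap.range a) = 0 ∨ finrank F (LinearMap.range a) = 1 ∨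
          finrank F (LinearMap.range a) + 1 = finrank F V := by
  have hlt := Pool.Agent.P2a19dl.rank_lt ha
  constructor
  · intro hp
    by_contra hcon
    push Not at hcon
    obtain ⟨h1, h2, h3, h4⟩ := hcon
    have ht := ((criterion ha G).1 hp).1
    rcases overgroups hB hA hG with h5 | h5
    · exact not_trans hB hA h5 (by omega) (by omega) ht
    · obtain ⟨g, hg, hg'⟩ := h1
      exact hg' (h5 g hg)
  · rintro (h | h | h | h)
    · exact of_special ha h
    · refine isPair_of_rank ha fun x hx => ?_
      rw [h] at hx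
      have h1 : x = 0 := LinearMap.range_eq_bot.1 (Submodule.finrank_eq_zero.1 hx)
      have h2 : a = 0 := LinearMap.range_eq_bot.1 (Submodule.finrank_eq_zero.1 h)
      rw [h1, ← h2]
      exact a_mem
    · refine Pool.Agent.P2a19dr.of_vectors (by omega) h ?_ ?_
      · intro x y hx hy
        obtain ⟨g, hg, hgx⟩ := trans_vectors hB hA hx hy
        exact ⟨g, hG hg, hgx⟩
      · intro U W hU hW
        obtain ⟨g, hg, he⟩ := transOn_hyper hB hA U W hU hW
        exact ⟨g, hG hg, he⟩
    · exact corank_one hB hA h hG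

end Pool.Agent.P2a19ds
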