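import Pool.Agent.Lib.P2a19ds.Elem

/-!
Groups of similitudes of an alternating form are not transitive on the subspaces of dimension `r` for
`2 ≤ r ≤ n - 2`.
-/

set_option autoImplicit false

namespace Pool.Agent.P2a19ds

open Module Pool.Agent.P2a19db

variable {F V : Type*} [Field F] [AddCommGroup V] [Module F V] [FiniteDimensional F V]
  {B : LinearMap.BilinForm F V}

/-- every element of `G` multiplies the form by a scalar -/
def Simil (B : LinearMap.BilinForm F V) (G : Subgroup (V ≃ₗ[F] V)) : Prop :=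
  ∀ g ∈ G, ∃ μ : F, ∀ v w, B (g v) (g w) = μ * B v w

lemma exists_iso (hB : B.Nondegenerate) (hA : B.IsAlt) (k : ℕ) (hk : 2 * k ≤ finrank F V) :
    ∃ U : Submodule F V, finrank F U = k ∧ ∀ u ∈ U, ∀ v ∈ U, B u v = 0 := by
  induction k with
  | zero =>
    refine ⟨⊥, by simp, ?_⟩
    intro u hu v hv
    rw [Submodule.mem_bot] at hu
    rw [hu, map_zero, LinearMap.zero_apply]
  | succ k ih =>
    obtain ⟨U, hU, hiso⟩ := ih (by omega)
    have h1 : finrank F (B.orthogonal U) = finrank F V - k := by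
      rw [LinearMap.BilinForm.finrank_orthogonal hB, hU]
    obtain ⟨v, hv, hvU⟩ : ∃ v ∈ B.orthogonal U, v ∉ U := by
      by_contra hcon
      push Not at hcon
      have h2 : B.orthogonal U ≤ U := hcon
      have h3 := Submodule.finrank_mono h2
      omega
    refine ⟨U ⊔ Submodule.span F {v}, ?_, ?_⟩
    · rw [Submodule.finrank_sup_span_singleton hvU, hU]
    · have hv' : ∀ u ∈ U, B u v = 0 := fun u hu => LinearMap.BilinForm.mem_orthogonal_iff.1 hv u hu
      have hv'' : ∀ u ∈ U, B v u = 0 := fun u hu => by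
        rw [← LinearMap.BilinForm.IsAlt.neg_eq hA, hv' u hu, neg_zero]
      intro u hu w hw
      obtain ⟨u1, hu1, s, hs, rfl⟩ := Submodule.mem_sup.1 hu
      obtain ⟨w1, hw1, t, ht, rfl⟩ := Submodule.mem_sup.1 hw
      obtain ⟨c, rfl⟩ := Submodule.mem_span_singleton.1 hs
      obtain ⟨d, rfl⟩ := Submodule.mem_span_singleton.1 ht
      simp only [map_add, map_smul, LinearMap.add_apply, LinearMap.smul_apply, hiso u1 hu1 w1 hw1,
        hv' u1 hu1, hv'' w1 hw1, hA v, smul_zero, add_zero]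

lemma exists_noniso {x y : V} (hA : B.IsAlt) (hxy : B x y ≠ 0) (k : ℕ) (hk : k + 2 ≤ finrank F V) :
    ∃ U : Submodule F V, finrank F U = k + 2 ∧ x ∈ U ∧ y ∈ U := by
  induction k with
  | zero =>
    have hy0 : y ≠ 0 := by
      rintro rfl
      exact hxy (map_zero _)
    have hx : x ∉ Submodule.span F {y} := by
      intro h
      obtain ⟨c, rfl⟩ := Submodule.mem_span_singleton.1 h
      apply hxy
      rw [map_smul, LinearMap.smul_apply, hA y, smul_zero]
    refine ⟨Submodule.span F {y} ⊔ Submodule.span F {x}, ?_, ?_, ?_⟩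
    · rw [Submodule.finrank_sup_span_singleton hx, finrank_span_singleton hy0]
    · exact Submodule.mem_sup_right (Submodule.mem_span_singleton_self x)
    · exact Submodule.mem_sup_left (Submodule.mem_span_singleton_self y)
  | succ k ih =>
    obtain ⟨U, hU, hx, hy⟩ := ih (by omega)
    obtain ⟨v, hv⟩ : ∃ v, v ∉ U := by
      by_contra hcon
      push Not at hcon
      have h1 : U = ⊤ := Submodule.eq_top_iff'.2 hcon
      rw [h1, finrank_top] at hU
      omega
    refine ⟨U ⊔ Submodule.span F {v}, ?_, Submodule.mem_sup_left hx, Submodule.mem_sup_left hy⟩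
    rw [Submodule.finrank_sup_span_singleton hv, hU]

lemma trans_dual (hB : B.Nondegenerate) (hA : B.IsAlt) {G : Subgroup (V ≃ₗ[F] V)}
    (hG : Simil B G) {r : ℕ} (hr : r ≤ finrank F V) (h : TransOn G r) :
    TransOn G (finrank F V - r) := by
  intro U W hU hW
  have h1 : finrank F (B.orthogonal U) = r := by
    rw [LinearMap.BilinForm.finrank_orthogonal hB, hU]; omega
  have h2 : finrank F (B.orthogonal W) = r := by
    rw [LinearMap.BilinForm.finrank_orthogonal hB, hW]; omega
  obtain ⟨g, hg, he⟩ := h _ _ h1 h2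
  refine ⟨g, hg, ?_⟩
  obtain ⟨μ, hμ⟩ := hG g hg
  refine Submodule.eq_of_le_of_finrank_eq ?_ ?_
  · rintro _ ⟨u, hu, rfl⟩
    rw [← LinearMap.BilinForm.orthogonal_orthogonal hB hA.isRefl W]
    rw [LinearMap.BilinForm.mem_orthogonal_iff]
    intro w hw
    rw [← he] at hw
    obtain ⟨u', hu', rfl⟩ := hw
    have h3 : B u u' = 0 := LinearMap.BilinForm.mem_orthogonal_iff.1 hu' u hu
    have h4 : B u' u = 0 := by rw [← LinearMap.BilinForm.IsAlt.neg_eq hA, h3, neg_zero]
    change B (g u') (g u) = 0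
    rw [hμ, h4, mul_zero]
  · rw [hW, ← hU]
    exact LinearEquiv.finrank_map_eq g U

theorem not_trans_aux (hB : B.Nondegenerate) (hA : B.IsAlt) {G : Subgroup (V ≃ₗ[F] V)}
    (hG : Simil B G) {r : ℕ} (h2 : 2 ≤ r) (hr : 2 * r ≤ finrank F V) : ¬ TransOn G r := by
  intro h
  obtain ⟨U, hU, hiso⟩ := exists_iso hB hA r hr
  have : Nontrivial V := Module.nontrivial_of_finrank_pos (R := F) (by omega)
  obtain ⟨x, hx⟩ := exists_ne (0 : V)
  obtain ⟨y, hxy⟩ : ∃ y, B x y ≠ 0 := by
    by_contra hcon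
    push Not at hcon
    exact hx (hB.1 x hcon)
  obtain ⟨W, hW, hxW, hyW⟩ := exists_noniso hA hxy (r - 2) (by omega)
  obtain ⟨g, hg, he⟩ := h U W hU (by omega)
  obtain ⟨μ, hμ⟩ := hG g hg
  rw [← he] at hxW hyW
  obtain ⟨u, hu, hux⟩ := hxW
  obtain ⟨v, hv, hvy⟩ := hyW
  apply hxy
  rw [← hux, ← hvy]
  change B (g u) (g v) = 0
  rw [hμ, hiso u hu v hv, mul_zero]

theorem not_trans (hB : B.Nondegenerate) (hA : B.IsAlt) {G : Subgroup (V ≃ₗ[F] V)}
    (hG : Simil B G) {r : ℕ} (h2 : 2 ≤ r) (hr : r + 2 ≤ finrank F V) : ¬ TransOn G r := by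
  intro h
  rcases Nat.le_total (2 * r) (finrank F V) with h1 | h1
  · exact not_trans_aux hB hA hG h2 h1 h
  · exact not_trans_aux hB hA hG (r := finrank F V - r) (by omega) (by omega)
      (trans_dual hB hA hG (by omega) h)

end Pool.Agent.P2a19ds
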