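import Pool.Agent.Lib.P2a19ds.Abs
import Pool.Agent.Lib.P2a19ds.Elem
import Pool.Agent.Lib.P2a19ds.NotTrans
import Pool.Agent.Lib.P2a19dl.Main
import Pool.Agent.Lib.P2a19dr.Crit

/-!
The symplectic groups.
-/

set_option autoImplicit false

namespace Pool.Agent.P2a19ds

open Module Pool.Agent.P2a19db

variable {F V : Type*} [Field F] [AddCommGroup V] [Module F V] [FiniteDimensional F V]
  {B : LinearMap.BilinForm F V}

lemma isPair_of_rank {a : Module.End F V} (ha : ¬ IsUnit a) {G : Subgroup (V ≃ₗ[F] V)}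
    (h : ∀ x : Module.End F V, finrank F (LinearMap.range x) = finrank F (LinearMap.range a) →
      x ∈ gen a G) : IsAutPair a G := by
  have hK := Pool.Agent.P2a19dl.ker_ne_bot ha
  have hlt := Pool.Agent.P2a19dl.rank_lt ha
  have hT : ∀ t ∈ TT F V (finrank F (LinearMap.range a)), t ∈ gen a G ∧
      finrank F (LinearMap.range t) ≤ finrank F (LinearMap.range a) := by
    intro t ht
    unfold TT at ht
    induction ht using Subsemigroup.closure_induction with
    | mem x hx => exact ⟨h x hx, le_of_eq hx⟩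
    | mul x y hx hy ihx ihy =>
      refine ⟨mul_mem ihx.1 ihy.1, le_trans (Submodule.finrank_mono ?_) ihx.2⟩
      rintro _ ⟨v, rfl⟩
      exact ⟨y v, rfl⟩
  unfold IsAutPair
  apply Set.Subset.antisymm
  · rintro x ⟨hx, hx'⟩
    obtain ⟨v, hv, hxv⟩ := exists_ker_of_mem hK hx hx'
    exact ⟨gen_mono le_top hx, not_unit_of_kernel hv hxv _⟩
  · rintro x ⟨hx, hx'⟩
    rcases gen_top_sub hx with h1 | h1
    · exact absurd h1 hx'
    · obtain ⟨h2, h2'⟩ := hT x h1
      have h3 : LinearMap.ker x ≠ ⊥ := by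
        intro h0
        have a2 := LinearMap.finrank_range_add_finrank_ker x
        rw [h0, finrank_bot] at a2
        omega
      obtain ⟨v, hv, hv0⟩ := (Submodule.ne_bot_iff _).1 h3
      exact ⟨h2, not_unit_of_kernel hv0 hv _⟩

/-- projection onto the hyperplane orthogonal to `x` along `y` -/
noncomputable def prj {x y : V} (hxy : B x y = 1) : V →ₗ[F] LinearMap.ker (B x) :=
  LinearMap.codRestrict (LinearMap.ker (B x)) (LinearMap.id - (B x).smulRight y) (fun v => by
    rw [LinearMap.mem_ker]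
    simp [hxy])

omit [FiniteDimensional F V] in
lemma prj_apply {x y : V} (hxy : B x y = 1) (v : V) : (prj hxy v : V) = v - B x v • y := rfl

omit [FiniteDimensional F V] in
lemma prj_coe {x y : V} (hxy : B x y = 1) (v : LinearMap.ker (B x)) : prj hxy (v : V) = v := by
  apply Subtype.ext
  rw [prj_apply, LinearMap.mem_ker.1 v.2, zero_smul, sub_zero]

omit [FiniteDimensional F V] in
lemma prj_y {x y : V} (hxy : B x y = 1) : prj hxy y = 0 := by
  apply Subtype.ext
  rw [prj_apply, hxy, one_smul, sub_self]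
  rfl

/-- extension of an automorphism of the hyperplane -/
noncomputable def TE {x y : V} (hxy : B x y = 1)
    (β : LinearMap.ker (B x) ≃ₗ[F] LinearMap.ker (B x)) : Module.End F V :=
  (LinearMap.ker (B x)).subtype ∘ₗ (β : LinearMap.ker (B x) →ₗ[F] LinearMap.ker (B x)) ∘ₗ prj hxy

omit [FiniteDimensional F V] in
lemma TE_apply {x y : V} (hxy : B x y = 1) (β : LinearMap.ker (B x) ≃ₗ[F] LinearMap.ker (B x))
    (v : V) : TE hxy β v = (β (prj hxy v) : V) := rfl

omit [FiniteDimensional F V] in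
lemma TE_mul {x y : V} (hxy : B x y = 1) (β β' : LinearMap.ker (B x) ≃ₗ[F] LinearMap.ker (B x)) :
    TE hxy β * TE hxy β' = TE hxy (β * β') := by
  ext v
  rw [Module.End.mul_apply, TE_apply, TE_apply, TE_apply, prj_coe, LinearEquiv.mul_apply]

omit [FiniteDimensional F V] in
lemma exists_hyp (hB : B.Nondegenerate) (hn : 1 ≤ finrank F V) : ∃ x y : V, B x y = 1 := by
  have : Nontrivial V := Module.nontrivial_of_finrank_pos (R := F) (by omega)
  obtain ⟨x, hx⟩ := exists_ne (0 : V)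
  obtain ⟨z, hz⟩ : ∃ z, B x z ≠ 0 := by
    by_contra hcon
    push Not at hcon
    exact hx (hB.1 x hcon)
  refine ⟨x, (B x z)⁻¹ • z, ?_⟩
  rw [map_smul, smul_eq_mul, inv_mul_cancel₀ hz]

lemma range_eq (hB : B.Nondegenerate) {x' : Module.End F V}
    (hr : finrank F (LinearMap.range x') + 1 = finrank F V) :
    ∃ x₁ : V, x₁ ≠ 0 ∧ ∀ v, B x₁ (x' v) = 0 := by
  have hne : LinearMap.range x' ≠ ⊤ := by
    intro h
    rw [h, finrank_top] at hr
    omega
  obtain ⟨v, hv⟩ : ∃ v, v ∉ LinearMap.range x' := by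
    by_contra hcon
    push Not at hcon
    exact hne (Submodule.eq_top_iff'.2 hcon)
  obtain ⟨ξ, hξ, hξ'⟩ := Submodule.exists_le_ker_of_notMem hv
  refine ⟨(B.toDual hB).symm ξ, ?_, ?_⟩
  · intro h0
    apply hξ
    have h1 : ξ = 0 := by
      rw [← (B.toDual hB).apply_symm_apply ξ, h0, map_zero]
    rw [h1]
    rfl
  · intro w
    rw [LinearMap.BilinForm.apply_toDual_symm_apply]
    exact hξ' ⟨w, rfl⟩

lemma ker_eq {x' : Module.End F V} (hr : finrank F (LinearMap.range x') + 1 = finrank F V) :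
    ∃ y₁ : V, y₁ ≠ 0 ∧ x' y₁ = 0 ∧ ∀ v, x' v = 0 → ∃ c : F, v = c • y₁ := by
  have h1 := LinearMap.finrank_range_add_finrank_ker x'
  have h2 : finrank F (LinearMap.ker x') = 1 := by omega
  obtain ⟨⟨y, hy⟩, hy0, hall⟩ := finrank_eq_one_iff'.1 h2
  refine ⟨y, fun h => hy0 (Subtype.ext h), hy, fun v hv => ?_⟩
  obtain ⟨c, hc⟩ := hall ⟨v, hv⟩
  exact ⟨c, (congrArg Subtype.val hc).symm⟩

lemma exists_TE (hB : B.Nondegenerate) (hA : B.IsAlt) {x y : V} (hxy : B x y = 1)
    {x' : Module.End F V} (hr : finrank F (LinearMap.range x') + 1 = finrank F V) :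
    ∃ g₁ ∈ Sp B, ∃ g₂ ∈ Sp B, ∃ β : LinearMap.ker (B x) ≃ₗ[F] LinearMap.ker (B x),
      ((g₁ : V →ₗ[F] V) * x' * (g₂ : V →ₗ[F] V) : Module.End F V) = TE hxy β := by
  have hx0 : x ≠ 0 := by
    rintro rfl
    rw [map_zero, LinearMap.zero_apply] at hxy
    exact zero_ne_one hxy
  have hy0 : y ≠ 0 := by
    rintro rfl
    rw [map_zero] at hxy
    exact zero_ne_one hxy
  obtain ⟨x₁, hx₁, hx₁'⟩ := range_eq hB hr
  obtain ⟨y₁, hy₁, hy₁', hall⟩ := ker_eq hr
  obtain ⟨g₁, hg₁, e₁⟩ := trans_vectors hB hA hx₁ hx0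
  obtain ⟨g₂, hg₂, e₂⟩ := trans_vectors hB hA hy0 hy₁
  have hR : ∀ v, B x (g₁ (x' (g₂ v))) = 0 := by
    intro v
    rw [← e₁, mem_Sp.1 hg₁]
    exact hx₁' _
  let f : LinearMap.ker (B x) →ₗ[F] LinearMap.ker (B x) :=
    LinearMap.codRestrict (LinearMap.ker (B x))
      ((g₁ : V →ₗ[F] V) ∘ₗ x' ∘ₗ (g₂ : V →ₗ[F] V) ∘ₗ (LinearMap.ker (B x)).subtype)
      (fun v => hR v)
  have hf : ∀ v : LinearMap.ker (B x), (f v : V) = g₁ (x' (g₂ v)) := fun v => rfl
  have hinj : Function.Injective f := by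
    rw [← LinearMap.ker_eq_bot, LinearMap.ker_eq_bot']
    intro v hv
    have h1 := congrArg Subtype.val hv
    rw [hf] at h1
    have h2 : x' (g₂ v) = 0 := g₁.map_eq_zero_iff.1 h1
    obtain ⟨c, hc⟩ := hall _ h2
    rw [← e₂, ← map_smul] at hc
    have h3 : (v : V) = c • y := g₂.injective hc
    have h4 := congrArg (B x) h3
    rw [LinearMap.mem_ker.1 v.2, map_smul, hxy, smul_eq_mul, mul_one] at h4
    rw [← h4, zero_smul] at h3
    exact Subtype.ext h3
  refine ⟨g₁, hg₁, g₂, hg₂, LinearEquiv.ofInjectiveEndo f hinj, ?_⟩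
  ext v
  rw [TE_apply]
  have h1 : ((LinearEquiv.ofInjectiveEndo f hinj (prj hxy v) : LinearMap.ker (B x)) : V) =
    g₁ (x' (g₂ (prj hxy v : V))) := rfl
  rw [h1, prj_apply, map_sub, map_smul, e₂, map_sub, map_smul, hy₁', smul_zero, sub_zero]
  rfl

/-- Endomorphisms of corank one. -/
theorem corank_one (hB : B.Nondegenerate) (hA : B.IsAlt) {a : Module.End F V}
    (ha : finrank F (LinearMap.range a) + 1 = finrank F V) {G : Subgroup (V ≃ₗ[F] V)}
    (hG : Sp B ≤ G) : IsAutPair a G := by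
  have hu : ¬ IsUnit a := by
    intro hu
    have h1 := (LinearMap.isUnit_iff_range_eq_top a).1 hu
    rw [h1, finrank_top] at ha
    omega
  obtain ⟨x, y, hxy⟩ := exists_hyp hB (by omega)
  have hxx : B x x = 0 := hA x
  let xR : LinearMap.ker (B x) := ⟨x, hxx⟩
  let η : LinearMap.ker (B x) →ₗ[F] F := (LinearMap.flip B y) ∘ₗ (LinearMap.ker (B x)).subtype
  have hη : ∀ v : LinearMap.ker (B x), η v = B v y := fun v => rfl
  let S : Set (LinearMap.ker (B x) ≃ₗ[F] LinearMap.ker (B x)) := {β | TE hxy β ∈ gen a G}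
  have hS : Clos xR η S := by
    refine ⟨?_, ?_, ?_⟩
    · intro b hb b' hb'
      change TE hxy (b * b') ∈ gen a G
      rw [← TE_mul]
      exact mul_mem hb hb'
    · intro b hb k ℓ hk
      obtain ⟨g, hg, hgk⟩ := ext_left hB hA hxy k ℓ (fun v => by
        have := congrArg Subtype.val (hk v)
        exact this)
      change TE hxy (k * b) ∈ gen a G
      have e : TE hxy (k * b) = (g : V →ₗ[F] V) * TE hxy b := by
        ext v
        rw [Module.End.mul_apply, TE_apply, TE_apply, LinearEquiv.mul_apply]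
        exact (hgk _).symm
      rw [e]
      exact mul_mem (g_mem (hG hg)) hb
    · intro b hb k p hk
      obtain ⟨g, hg, ⟨μ, hμ⟩, hgk⟩ := ext_right hB hA hxy k p (fun v => by
        have := congrArg Subtype.val (hk v)
        exact this)
      change TE hxy (b * k) ∈ gen a G
      have e : TE hxy (b * k) = TE hxy b * (g : V →ₗ[F] V) := by
        ext v
        rw [Module.End.mul_apply, TE_apply, TE_apply, LinearEquiv.mul_apply]
        have e1 : v = (prj hxy v : V) + B x v • y := by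
          rw [prj_apply]
          abel
        obtain ⟨c, hc⟩ := hgk (prj hxy v)
        have e2 : g v = (k (prj hxy v) : V) + (c + B x v * μ) • y := by
          conv_lhs => rw [e1]
          rw [map_add, map_smul, hμ, hc]
          module
        have e3 : prj hxy ((g : V →ₗ[F] V) v) = k (prj hxy v) := by
          rw [LinearEquiv.coe_coe, e2, map_add, map_smul, prj_y, smul_zero, add_zero, prj_coe]
        rw [e3]
      rw [e]
      exact mul_mem hb (g_mem (hG hg))
  have hne : S.Nonempty := by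
    obtain ⟨g₁, hg₁, g₂, hg₂, β, hβ⟩ := exists_TE hB hA hxy ha
    refine ⟨β, ?_⟩
    change TE hxy β ∈ gen a G
    rw [← hβ]
    exact mul_mem (mul_mem (g_mem (hG hg₁)) a_mem) (g_mem (hG hg₂))
  have hall := clos_all hS (show η xR = 1 from hxy) hne
  refine isPair_of_rank hu fun x' hx' => ?_
  obtain ⟨g₁, hg₁, g₂, hg₂, β, hβ⟩ := exists_TE hB hA hxy (x' := x') (by rw [hx']; exact ha)
  have h1 : TE hxy β ∈ gen a G := hall β
  rw [← hβ] at h1
  have e : x' = ((g₁⁻¹ : V ≃ₗ[F] V) : V →ₗ[F] V) * ((g₁ : V →ₗ[F] V) * x' * (g₂ : V →ₗ[F] V)) *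
      ((g₂⁻¹ : V ≃ₗ[F] V) : V →ₗ[F] V) := by
    ext v
    simp only [Module.End.mul_apply, LinearEquiv.coe_coe]
    have e1 : g₂ (g₂⁻¹ v) = v := g₂.apply_symm_apply v
    have e2 : g₁⁻¹ (g₁ (x' v)) = x' v := g₁.symm_apply_apply _
    rw [e1, e2]
  rw [e]
  exact mul_mem (mul_mem (g_mem (inv_mem (hG hg₁))) h1) (g_mem (inv_mem (hG hg₂)))

end Pool.Agent.P2a19ds
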